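import Pool.Agent.W123.RU.Tup
import Pool.Agent.W123.GS.Fin

set_option autoImplicit false

/-!
# Almost prime tuples: constant density at all but boundedly many scales, uniformly in the shifts

Let `k ≥ 1` and `B ≥ 1`. For admissible tuples of distinct shifts `a₁, …, a_k ≤ x ^ B` put
`V = ∏_{p ≤ x} (1 - ν_p / p)`, where `ν_p` is the number of residue classes modulo `p` occupied by the
tuple. Consider the integers `m` for which all `m + a_i` have at most `r` prime factors, all larger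
than `x ^ (1 / r)`. At all but boundedly many dyadic scales `D` with `1 / V ≤ D ≤ x` they have a
constant density `λ V` on `[n - D, n + D]`, up to `δ V`, for all subintervals simultaneously: this
holds for almost all `n` with some `λ ≥ 0`, and for a positive proportion of all `n` with
`c₁ ≤ λ ≤ c₂`.
-/

namespace Pool.Agent.Results.MP_68a45e_nt.AllButFewScales

open Finset Filter

/-- all `m + a i` have at most `r` prime factors (with multiplicity), all of them larger than `z` -/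
def AlmostPrimeTuple {k : ℕ} (a : Fin k → ℕ) (r : ℕ) (z : ℝ) (m : ℕ) : Prop :=
  ∀ i, (m + a i).primeFactorsList.length ≤ r ∧ ∀ p : ℕ, p.Prime → p ∣ m + a i → z < (p : ℝ)

open Classical in
/-- the number of `m` modulo `p` for which `p` divides some `m + a i`, that is the number of residue
classes modulo `p` occupied by the tuple -/
noncomputable def nu {k : ℕ} (a : Fin k → ℕ) (p : ℕ) : ℕ :=
  ((Finset.range p).filter (fun m => ∃ i, p ∣ m + a i)).card

/-- the expected density -/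
noncomputable def V {k : ℕ} (a : Fin k → ℕ) (x : ℕ) : ℝ :=
  ∏ p ∈ (Finset.Icc 1 x).filter Nat.Prime, (1 - (nu a p : ℝ) / p)

open Classical in
/-- up to `δ V` the `m` of the tuple problem have a constant density `lam V` with `c₁ ≤ lam ≤ c₂` on
`[n - D, n + D]` -/
def ConstantDensity {k : ℕ} (a : Fin k → ℕ) (r : ℕ) (c₁ c₂ δ : ℝ) (x n D : ℕ) : Prop :=
  ∃ lam : ℝ, c₁ ≤ lam ∧ lam ≤ c₂ ∧ ∀ u v : ℕ, n ≤ u + D → u ≤ v → v ≤ n + D →
    |(((Finset.Ioc u v).filter
        (fun m => AlmostPrimeTuple a r ((x : ℝ) ^ (1 / (r : ℝ))) m)).card : ℝ) -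
      lam * V a x * ((v : ℝ) - u)| ≤ δ * V a x * D

open Classical in
/-- the number of `j` with `1 / V ≤ 2 ^ j ≤ x` for which there is no constant density on
`[n - 2 ^ j, n + 2 ^ j]` -/
noncomputable def badScales {k : ℕ} (a : Fin k → ℕ) (r : ℕ) (c₁ c₂ δ : ℝ) (x n : ℕ) : ℕ :=
  ((Finset.range (Nat.log 2 x + 1)).filter (fun j => 1 / V a x ≤ (2 : ℝ) ^ j ∧
    ¬ ConstantDensity a r c₁ c₂ δ x n (2 ^ j))).card

open Pool.Agent.W123.RP Pool.Agent.H373R2.T7 Pool.Agent.W123.RU Pool.Agent.W123.RU.Tup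
  Pool.Agent.W123.GS

lemma V_eq {k : ℕ} (a : Fin k → ℕ) (x : ℕ) : V a x = Vq (Q a) x := by
  unfold V Vq pz
  apply Finset.prod_congr rfl
  intro p _
  have : nu a p = nuB (Q a) p := by
    unfold nu nuB
    congr
  rw [this]

open Classical in
lemma bad_le {k : ℕ} (a : Fin k → ℕ) (r : ℕ) (c₁ c₂ δ : ℝ) (x n : ℕ) (P : ℕ → Prop) (L : ℝ)
    (hV : 0 < Vq (Q a) x) (hL : L = 1 / Vq (Q a) x)
    (hP : ∀ m, P m ↔ AlmostPrimeTuple a r ((x : ℝ) ^ (1 / (r : ℝ))) m) :
    badScales a r c₁ c₂ δ x n ≤ ((range (Nat.log 2 x + 1)).filter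
      (fun j => L ≤ (2 : ℝ) ^ j ∧ ¬ Good P c₁ c₂ δ L n j)).card := by
  unfold badScales
  apply card_le_card
  intro j hj
  rw [mem_filter] at hj ⊢
  refine ⟨hj.1, ?_, ?_⟩
  · rw [hL, ← V_eq]; exact hj.2.1
  · intro hg
    apply hj.2.2
    obtain ⟨lam, h1, h2, h3⟩ := hg
    refine ⟨lam, h1, h2, ?_⟩
    intro u v hu huv hv
    have h4 := h3 u v hu huv hv
    have hco : co P u v = ((Finset.Ioc u v).filter
        (fun m => AlmostPrimeTuple a r ((x : ℝ) ^ (1 / (r : ℝ))) m)).card := by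
      unfold co
      congr 1
      ext m
      rw [mem_filter, mem_filter, hP]
    rw [hco] at h4
    rw [V_eq]
    have e1 : lam * Vq (Q a) x * ((v : ℝ) - u) = lam * ((v : ℝ) - u) / L := by
      rw [hL]; field_simp
    have e2 : δ * Vq (Q a) x * ((2 ^ j : ℕ) : ℝ) = δ * 2 ^ j / L := by
      rw [hL]; push_cast; field_simp
    rw [e1, e2]
    exact h4

open Classical in
/-- **All but boundedly many scales, uniformly in the shifts.** -/
theorem result (k : ℕ) (hk : 1 ≤ k) (B : ℕ) (hB : 1 ≤ B) :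
    ∃ (r : ℕ) (c₁ c₂ κ : ℝ), 0 < c₁ ∧ 0 < c₂ ∧ 0 < κ ∧ ∀ δ η : ℝ, 0 < δ → 0 < η →
    ∃ (K : ℕ) (Λ : ℝ), ∀ᶠ x : ℕ in atTop, ∀ a : Fin k → ℕ, Function.Injective a → (∀ i, a i ≤ x ^ B) →
      (∀ p : ℕ, p.Prime → ∃ m : ℕ, ∀ i, ¬ p ∣ m + a i) →
      κ * x ≤ (((Finset.Ioc x (2 * x)).filter (fun n => badScales a r c₁ c₂ δ x n ≤ K)).card : ℝ) ∧
      (((Finset.Ioc x (2 * x)).filter (fun n => K < badScales a r 0 Λ δ x n)).card : ℝ) ≤ η * x := by
  obtain ⟨Cu, hCu, hVup⟩ := V_up hk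
  obtain ⟨cr, hcr, hVr⟩ := V_ratio k
  obtain ⟨D', hD'⟩ : ∃ D' : ℕ, 8 * (k : ℝ) ^ 2 * (B + 1) * Cu ≤ D' := exists_nat_ge _
  obtain ⟨K1, hK1, hmain⟩ := sieve_scales k (2 * k) (k ^ 2) D' (k ^ 2) hk
  obtain ⟨K2, hK2, hlow⟩ := rough_lower k hk
  obtain ⟨r, hr⟩ : ∃ r : ℕ, r = max K1 K2 := ⟨_, rfl⟩
  have hr1 : K1 ≤ r := by rw [hr]; exact le_max_left _ _
  have hr2 : K2 ≤ r := by rw [hr]; exact le_max_right _ _
  have hr0 : 2 ≤ r := hK1.trans hr1
  have hrr : (2 : ℝ) ≤ r := by exact_mod_cast hr0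
  have hrpos : (0 : ℝ) < r := by linarith
  obtain ⟨R, hR⟩ : ∃ R : ℕ, R = (2 * B) * r := ⟨_, rfl⟩
  have hRr : (R : ℝ) = (2 * B) * r := by rw [hR]; push_cast; ring
  have hBr : (1 : ℝ) ≤ B := by exact_mod_cast hB
  have hR2r : 2 * r ≤ R := by rw [hR]; nlinarith
  have hR0 : 2 ≤ R := by omega
  have hR2r' : 2 * (r : ℝ) ≤ R := by exact_mod_cast hR2r
  have hRpos : (0 : ℝ) < R := by linarith
  -- constant of the comparison
  set C3 : ℝ := (4 * R) ^ (2 * k) / cr with hC3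
  have hC30 : 0 < C3 := by positivity
  obtain ⟨c₁, c₂, κ, hc₁, hc₂, hκ, hmain⟩ := hmain R (by omega) (1 / 2) C3 (by positivity) hC30
  refine ⟨R, c₁, c₂, κ, hc₁, hc₂, hκ, ?_⟩
  intro δ η hδ hη
  obtain ⟨K, lam, L0, hlam, hreg⟩ := hmain δ η hδ hη
  refine ⟨K, lam, ?_⟩
  have hXr : Tendsto (fun X : ℕ => (X : ℝ)) atTop atTop := tendsto_natCast_atTop_atTop
  have hpow : Tendsto (fun X : ℕ => (X : ℝ) ^ (1 / (2 * R : ℝ))) atTop atTop :=
    (tendsto_rpow_atTop (by positivity)).comp hXr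
  have hlogX : Tendsto (fun X : ℕ => Real.log (X : ℝ)) atTop atTop :=
    Real.tendsto_log_atTop.comp hXr
  have key : ∀ᶠ X : ℕ in atTop, ∀ x : ℕ, x = X → ∀ a : Fin k → ℕ,
      (∀ i, a i ≤ x ^ B) → Adm a →
      κ * X ≤ (((Finset.Ioc X (2 * X)).filter (fun n => badScales a R c₁ c₂ δ x n ≤ K)).card : ℝ) ∧
      (((Finset.Ioc X (2 * X)).filter (fun n => K < badScales a R 0 lam δ x n)).card : ℝ) ≤ η * X := by
    filter_upwards [hreg, hlow r hr2 (2 * k + 1), eventually_ge_atTop (16 + 2 * k),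
      hpow.eventually_ge_atTop (3 + 2 * k), hlogX.eventually_ge_atTop (2 + Cu * (|L0| + 2) +
        (∏ p ∈ pz (2 * k + 2), (p : ℝ)) / cr * 4 ^ (2 * k)),
      logpow_le (8 * (2 * k + 1)) 1 (by norm_num)] with X hreg hlow hX16' hX2 hXlog hlp
    intro x hxX' a ha hadm
    have hx1 : X ≤ x := by omega
    have hx2 : x ≤ 4 * X := by omega
    have hX16 : 16 ≤ X := by omega
    have hX16r : (16 : ℝ) ≤ X := by exact_mod_cast hX16
    have hXpos : (0 : ℝ) < X := by linarith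
    have hX1 : (1 : ℝ) ≤ X := by linarith
    have hx1r : (X : ℝ) ≤ x := by exact_mod_cast hx1
    have hx2r : (x : ℝ) ≤ 4 * X := by exact_mod_cast hx2
    have hxpos : (0 : ℝ) < x := by linarith
    have hxX2 : (x : ℝ) ≤ (X : ℝ) ^ 2 := by nlinarith
    have hL0a : 0 ≤ |L0| := abs_nonneg _
    have hCuL : 0 ≤ Cu * (|L0| + 2) := by positivity
    set PP : ℝ := ∏ p ∈ pz (2 * k + 2), (p : ℝ) with hPP
    have hPP0 : 0 < PP := Finset.prod_pos fun p hp => by
      exact_mod_cast (mem_pz.1 hp).2.pos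
    have hPPc : 0 ≤ PP / cr * 4 ^ (2 * k) := by positivity
    have hlX2 : 2 ≤ Real.log X := by linarith
    have hlX : 0 < Real.log X := by linarith
    have hlX1 : 1 ≤ Real.log X := by linarith
    have hlx : Real.log X ≤ Real.log x := Real.log_le_log hXpos (by linarith)
    have hlx0 : 0 < Real.log x := by linarith
    have hlx2 : Real.log x ≤ 2 * Real.log X := by
      calc Real.log x ≤ Real.log ((X : ℝ) ^ 2) := Real.log_le_log hxpos hxX2
        _ = 2 * Real.log X := by rw [Real.log_pow]; norm_num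
    obtain ⟨hy1, hy2, hy3, hy4⟩ := level_low R hR0 X (by omega) (by
      have : (0 : ℝ) ≤ k := Nat.cast_nonneg k
      linarith)
    have hkr : (0 : ℝ) ≤ k := Nat.cast_nonneg k
    have hmono : (X : ℝ) ^ (1 / (2 * R : ℝ)) ≤ (X : ℝ) ^ (1 / (2 * r : ℝ)) := by
      apply Real.rpow_le_rpow_of_exponent_le hX1
      apply one_div_le_one_div_of_le (by positivity)
      linarith
    obtain ⟨hz1, hz2, hz3, hz4⟩ := level_low r hr0 X (by omega) (by linarith)
    -- levels are below x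
    have hfl : ∀ s : ℕ, 2 ≤ s → ⌊(X : ℝ) ^ (1 / (s : ℝ))⌋₊ ≤ x := by
      intro s hs
      have hsr : (2 : ℝ) ≤ s := by exact_mod_cast hs
      have h1 : ((⌊(X : ℝ) ^ (1 / (s : ℝ))⌋₊ : ℕ) : ℝ) ≤ x := by
        calc ((⌊(X : ℝ) ^ (1 / (s : ℝ))⌋₊ : ℕ) : ℝ) ≤ (X : ℝ) ^ (1 / (s : ℝ)) :=
              Nat.floor_le (by positivity)
          _ ≤ (X : ℝ) ^ (1 : ℝ) := by
            apply Real.rpow_le_rpow_of_exponent_le hX1
            rw [div_le_one (by linarith)]; linarith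
          _ = X := Real.rpow_one _
          _ ≤ x := by linarith
      exact_mod_cast h1
    have hVx0 : ∀ y : ℕ, 0 ≤ Vq (Q a) y := fun y =>
      Finset.prod_nonneg fun p hp => one_sub_nonneg _ p (mem_pz.1 hp).2
    -- the product is not too small
    have hVlow : 1 / Real.log X ^ (2 * k + 1) ≤ Vq (Q a) x := by
      have h1 := hVr (2 * k + 2) x (by omega) (by omega) (by omega) a hadm
      refine le_trans ?_ h1
      have h2 : 1 / PP ≤ Vq (Q a) (2 * k + 2) := by
        rw [hPP, one_div, ← Finset.prod_inv_distrib]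
        apply Finset.prod_le_prod
        · intro p _; positivity
        · intro p hp
          have hpp := (mem_pz.1 hp).2
          have hp0 : (0 : ℝ) < p := by exact_mod_cast hpp.pos
          have h3 : (nuB (Q a) p : ℝ) + 1 ≤ p := by exact_mod_cast adm a hadm p hpp
          rw [le_sub_iff_add_le, inv_eq_one_div, ← add_div, div_le_one hp0]
          linarith
      have hl3 : (1 : ℝ) / 2 ≤ Real.log ((2 * k + 2 : ℕ) : ℝ) := by
        have h4 : Real.log 2 ≤ Real.log ((2 * k + 2 : ℕ) : ℝ) := by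
          apply Real.log_le_log (by norm_num)
          push_cast
          linarith
        have := Real.log_two_gt_d9
        linarith
      have h5 : 1 / (4 * Real.log X) ≤ Real.log ((2 * k + 2 : ℕ) : ℝ) / Real.log x := by
        rw [div_le_div_iff₀ (by positivity) hlx0]
        nlinarith
      have h6 : (1 / (4 * Real.log X)) ^ (2 * k) ≤
          (Real.log ((2 * k + 2 : ℕ) : ℝ) / Real.log x) ^ (2 * k) :=
        pow_le_pow_left₀ (by positivity) h5 _
      calc 1 / Real.log X ^ (2 * k + 1) = 1 / Real.log X ^ (2 * k) * (1 / Real.log X) := by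
            rw [pow_succ]; field_simp
        _ ≤ 1 / Real.log X ^ (2 * k) * (cr / (4 ^ (2 * k) * PP)) := by
            apply mul_le_mul_of_nonneg_left _ (by positivity)
            rw [div_le_div_iff₀ hlX (by positivity), one_mul]
            have h7 : PP / cr * 4 ^ (2 * k) ≤ Real.log X := by linarith
            rw [div_mul_eq_mul_div, div_le_iff₀ hcr] at h7
            linarith
        _ = cr * (1 / (4 * Real.log X)) ^ (2 * k) * (1 / PP) := by
            rw [div_pow, mul_pow, one_pow]; field_simp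
        _ ≤ cr * (Real.log ((2 * k + 2 : ℕ) : ℝ) / Real.log x) ^ (2 * k) * Vq (Q a) (2 * k + 2) := by
            gcongr
    have hVxpos : 0 < Vq (Q a) x := lt_of_lt_of_le (by positivity) hVlow
    set L : ℝ := 1 / Vq (Q a) x with hL
    have hLpos : 0 < L := by positivity
    have hLlow : Real.log x / Cu ≤ L := by
      have h1 := hVup x (by omega) a
      rw [hL, div_le_div_iff₀ hCu hVxpos]
      rw [le_div_iff₀ hlx0] at h1
      linarith
    have hL8 : L ^ 8 ≤ X := by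
      have h1 : L ≤ Real.log X ^ (2 * k + 1) := by
        rw [hL, div_le_iff₀ hVxpos]
        rw [div_le_iff₀ (by positivity)] at hVlow
        linarith
      calc L ^ 8 ≤ (Real.log X ^ (2 * k + 1)) ^ 8 := by gcongr
        _ = 1 * Real.log X ^ (8 * (2 * k + 1)) := by rw [← pow_mul, one_mul, mul_comm 8]
        _ ≤ X := hlp
    have hL0' : |L0| + 2 ≤ L := by
      refine le_trans ?_ hLlow
      rw [le_div_iff₀ hCu]
      linarith
    -- upper bound of the sieve product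
    have hVy : Vq (Q a) ⌊(X : ℝ) ^ (1 / (R : ℝ))⌋₊ ≤ C3 / L := by
      have h2k : 2 * k ≤ ⌊(X : ℝ) ^ (1 / (R : ℝ))⌋₊ := by
        have : ((2 * k : ℕ) : ℝ) ≤ ⌊(X : ℝ) ^ (1 / (R : ℝ))⌋₊ := by
          push_cast; linarith
        exact_mod_cast this
      have h1 := hVr ⌊(X : ℝ) ^ (1 / (R : ℝ))⌋₊ x hy4 (hfl R hR0) h2k a hadm
      have h2 : 1 / (4 * (R : ℝ)) ≤ Real.log ⌊(X : ℝ) ^ (1 / (R : ℝ))⌋₊ / Real.log x := by
        rw [le_div_iff₀ hlx0]
        calc 1 / (4 * (R : ℝ)) * Real.log x ≤ 1 / (4 * (R : ℝ)) * (2 * Real.log X) := by gcongr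
          _ = Real.log X / (2 * R) := by field_simp; norm_num
          _ ≤ _ := hy2
      have h3 : (1 / (4 * (R : ℝ))) ^ (2 * k) ≤
          (Real.log ⌊(X : ℝ) ^ (1 / (R : ℝ))⌋₊ / Real.log x) ^ (2 * k) :=
        pow_le_pow_left₀ (by positivity) h2 _
      have h4 : cr * (1 / (4 * (R : ℝ))) ^ (2 * k) * Vq (Q a) ⌊(X : ℝ) ^ (1 / (R : ℝ))⌋₊ ≤
          Vq (Q a) x := by
        refine le_trans ?_ h1
        have := hVx0 ⌊(X : ℝ) ^ (1 / (R : ℝ))⌋₊
        gcongr
      have e1 : C3 / L = C3 * Vq (Q a) x := by rw [hL]; field_simp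
      rw [e1, hC3, div_mul_eq_mul_div, le_div_iff₀ hcr]
      have e2 : cr * (1 / (4 * (R : ℝ))) ^ (2 * k) * Vq (Q a) ⌊(X : ℝ) ^ (1 / (R : ℝ))⌋₊ =
          Vq (Q a) ⌊(X : ℝ) ^ (1 / (R : ℝ))⌋₊ * cr / (4 * (R : ℝ)) ^ (2 * k) := by
        rw [div_pow, one_pow]; field_simp
      rw [e2, div_le_iff₀ (by positivity)] at h4
      linarith
    -- the product at the lower level
    have hVz : Vq (Q a) x ≤ Vq (Q a) ⌊(X : ℝ) ^ (1 / (r : ℝ))⌋₊ := by
      have hsub : pz ⌊(X : ℝ) ^ (1 / (r : ℝ))⌋₊ ⊆ pz x := by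
        intro p hp
        rw [mem_pz] at hp ⊢
        exact ⟨hp.1.trans (hfl r hr0), hp.2⟩
      have e1 : Vq (Q a) x = (∏ p ∈ pz x \ pz ⌊(X : ℝ) ^ (1 / (r : ℝ))⌋₊,
          (1 - (nuB (Q a) p : ℝ) / p)) * Vq (Q a) ⌊(X : ℝ) ^ (1 / (r : ℝ))⌋₊ :=
        (Finset.prod_sdiff hsub).symm
      rw [e1]
      have h1 : ∏ p ∈ pz x \ pz ⌊(X : ℝ) ^ (1 / (r : ℝ))⌋₊, (1 - (nuB (Q a) p : ℝ) / p) ≤ 1 := by
        apply Finset.prod_le_one
        · intro p hp
          exact one_sub_nonneg _ p (mem_pz.1 (mem_sdiff.1 hp).1).2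
        · intro p _
          have : 0 ≤ (nuB (Q a) p : ℝ) / p := by positivity
          linarith
      have h2 := hVx0 ⌊(X : ℝ) ^ (1 / (r : ℝ))⌋₊
      calc _ ≤ 1 * Vq (Q a) ⌊(X : ℝ) ^ (1 / (r : ℝ))⌋₊ := mul_le_mul_of_nonneg_right h1 h2
        _ = _ := one_mul _
    -- large primes
    have hlarge : ∀ h ∈ Icc 1 ⌊L⌋₊, h ∉ E0 a → ((pz ⌊(X : ℝ) ^ (1 / (R : ℝ))⌋₊).filter
        (fun p : ℕ => ⌊L⌋₊ < p ∧ CoG (Q a) p h)).card ≤ D' * ⌊L⌋₊ := by
      intro h hh hE
      have hLX : L ≤ X := by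
        calc L = L ^ 1 := (pow_one L).symm
          _ ≤ L ^ 8 := pow_le_pow_right₀ (by linarith) (by norm_num)
          _ ≤ X := hL8
      have hTx : ⌊L⌋₊ ≤ x ^ B := by
        have h1 : ((⌊L⌋₊ : ℕ) : ℝ) ≤ x := by
          have := Nat.floor_le hLpos.le
          linarith
        have h2 : ⌊L⌋₊ ≤ x := by exact_mod_cast h1
        exact h2.trans (Nat.le_self_pow (by omega) x)
      have h1 := large a (x ^ B) ha ⌊L⌋₊ hTx ⌊(X : ℝ) ^ (1 / (R : ℝ))⌋₊ h hh hE
      have hl2 : (1 : ℝ) / 2 ≤ Real.log 2 := by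
        have := Real.log_two_gt_d9
        linarith
      have h3 : Real.log (2 * ((x ^ B : ℕ) : ℝ)) ≤ (B + 1) * Real.log x := by
        push_cast
        calc Real.log (2 * (x : ℝ) ^ B) ≤ Real.log ((x : ℝ) ^ (B + 1)) := by
              apply Real.log_le_log (by positivity)
              rw [pow_succ, mul_comm]
              gcongr
              linarith
          _ = (B + 1) * Real.log x := by rw [Real.log_pow]; push_cast; ring
      have hc0 : (0 : ℝ) ≤ (((pz ⌊(X : ℝ) ^ (1 / (R : ℝ))⌋₊).filter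
        (fun p : ℕ => ⌊L⌋₊ < p ∧ CoG (Q a) p h)).card : ℝ) := Nat.cast_nonneg _
      have hk2 : (0 : ℝ) ≤ (k : ℝ) ^ 2 := by positivity
      have h4 : (((pz ⌊(X : ℝ) ^ (1 / (R : ℝ))⌋₊).filter
        (fun p : ℕ => ⌊L⌋₊ < p ∧ CoG (Q a) p h)).card : ℝ) ≤
          2 * ((k : ℝ) ^ 2 * ((B + 1) * Real.log x)) := by
        have h5 := mul_le_mul_of_nonneg_left hl2 hc0
        have h6 := mul_le_mul_of_nonneg_left h3 hk2
        linarith
      have h5 : L / 2 ≤ ⌊L⌋₊ := by
        have := Nat.lt_floor_add_one L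
        linarith
      have h6 : Real.log x ≤ Cu * L := by
        rw [div_le_iff₀ hCu] at hLlow
        linarith
      have h7 : 2 * ((k : ℝ) ^ 2 * ((B + 1) * Real.log x)) ≤ D' * ⌊L⌋₊ := by
        calc 2 * ((k : ℝ) ^ 2 * ((B + 1) * Real.log x)) ≤ 2 * ((k : ℝ) ^ 2 * ((B + 1) * (Cu * L))) := by
              gcongr
          _ = 4 * (k : ℝ) ^ 2 * (B + 1) * Cu * (L / 2) := by ring
          _ ≤ (D' : ℝ) * ⌊L⌋₊ := by
            apply mul_le_mul _ h5 (by positivity) (by positivity)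
            have : 0 ≤ 4 * (k : ℝ) ^ 2 * (B + 1) * Cu := by positivity
            linarith
      have h8 := h4.trans h7
      exact_mod_cast h8
    -- the set
    obtain ⟨P, hP⟩ : ∃ P : ℕ → Prop, ∀ m, P m ↔ AlmostPrimeTuple a R ((x : ℝ) ^ (1 / (R : ℝ))) m :=
      ⟨_, fun m => Iff.rfl⟩
    have hXx : (X : ℝ) ^ (1 / (R : ℝ)) ≤ (x : ℝ) ^ (1 / (R : ℝ)) :=
      Real.rpow_le_rpow hXpos.le (by linarith) (by positivity)
    have hxX : (x : ℝ) ^ (1 / (R : ℝ)) ≤ (X : ℝ) ^ (1 / (r : ℝ)) := by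
      calc (x : ℝ) ^ (1 / (R : ℝ)) ≤ ((X : ℝ) ^ (2 : ℝ)) ^ (1 / (R : ℝ)) := by
            apply Real.rpow_le_rpow hxpos.le _ (by positivity)
            rw [Real.rpow_two]; exact hxX2
        _ = (X : ℝ) ^ (2 * (1 / (R : ℝ))) := by rw [← Real.rpow_mul hXpos.le]
        _ ≤ (X : ℝ) ^ (1 / (r : ℝ)) := by
          apply Real.rpow_le_rpow_of_exponent_le hX1
          rw [mul_one_div, div_le_div_iff₀ hRpos hrpos]
          linarith
    have hPQ : ∀ m, P m → m ≤ 4 * X → ⌊(X : ℝ) ^ (1 / (R : ℝ))⌋₊ < m →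
        ∀ p ∈ pz ⌊(X : ℝ) ^ (1 / (R : ℝ))⌋₊, ¬ Q a p m := by
      rintro m hPm _ _ p hp ⟨i, hi⟩
      have h5 := (((hP m).1 hPm) i).2 p (mem_pz.1 hp).2 hi
      have h6 := mem_pz' (by positivity) hp
      linarith
    have hcnt : 1 / 2 * X / L ≤ (co P X (2 * X) : ℝ) := by
      have h1 := hlow (Q a) (perB a) (hVlow.trans hVz)
      have h2 : (((Finset.Ioc X (2 * X)).filter (fun n =>
          ∀ p ∈ pz ⌊(X : ℝ) ^ (1 / (r : ℝ))⌋₊, ¬ Q a p n)).card : ℝ) ≤ (co P X (2 * X) : ℝ) := by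
        have : ((Finset.Ioc X (2 * X)).filter (fun n =>
          ∀ p ∈ pz ⌊(X : ℝ) ^ (1 / (r : ℝ))⌋₊, ¬ Q a p n)).card ≤ co P X (2 * X) := by
          unfold co
          apply card_le_card
          intro m hm
          rw [mem_filter, mem_Ioc] at hm
          rw [mem_filter, mem_Ioc, hP]
          obtain ⟨hm1, hm2⟩ := hm
          refine ⟨hm1, ?_⟩
          intro i
          have hrough : ∀ q : ℕ, q.Prime → q ∣ m + a i → (X : ℝ) ^ (1 / (r : ℝ)) < q := by
            intro q hq hd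
            apply not_mem_pz hq
            intro h
            exact hm2 q h ⟨i, hd⟩
          refine ⟨?_, fun q hq hd => lt_of_le_of_lt hxX (hrough q hq hd)⟩
          apply length_le (m + a i) R (by omega) ((X : ℝ) ^ (1 / (r : ℝ))) hrough
          · have e1 : ((X : ℝ) ^ (1 / (r : ℝ))) ^ R = ((X : ℝ) ^ 2) ^ B := by
              rw [← Real.rpow_natCast ((X : ℝ) ^ (1 / (r : ℝ))), ← Real.rpow_mul hXpos.le, hRr,
                ← pow_mul, ← Real.rpow_natCast]
              congr 1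
              push_cast
              field_simp
            rw [pow_succ, e1]
            have h3 : (3 : ℝ) ≤ (X : ℝ) ^ (1 / (r : ℝ)) := by
              have h5 : (X : ℝ) ^ (1 / (2 * r : ℝ)) ≤ (X : ℝ) ^ (1 / (r : ℝ)) := by
                apply Real.rpow_le_rpow_of_exponent_le hX1
                apply one_div_le_one_div_of_le hrpos
                linarith
              linarith
            have h4 : ((m + a i : ℕ) : ℝ) ≤ 3 * (x : ℝ) ^ B := by
              have h5 : x ≤ x ^ B := Nat.le_self_pow (by omega) x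
              have h6 : m + a i ≤ 3 * x ^ B := by
                have := ha i
                omega
              exact_mod_cast h6
            calc ((m + a i : ℕ) : ℝ) ≤ 3 * (x : ℝ) ^ B := h4
              _ ≤ 3 * ((X : ℝ) ^ 2) ^ B := by gcongr
              _ = ((X : ℝ) ^ 2) ^ B * 3 := by ring
              _ ≤ _ := by gcongr
          · exact Real.one_le_rpow hX1 (by positivity)
        exact_mod_cast this
      refine le_trans ?_ (h1.trans h2)
      calc 1 / 2 * X / L = Vq (Q a) x * X / 2 := by rw [hL]; field_simp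
        _ ≤ _ := by gcongr
    have hfin := hreg (Q a) (CoG (Q a)) L (E0 a) (sdata a hadm) (by
      have := le_abs_self L0
      linarith) hL8 hVy (E0_card a) hlarge P P (fun m h => h) hPQ hcnt
    subst hxX'
    refine conclude P c₁ c₂ δ L lam κ η K x (fun n => badScales a R c₁ c₂ δ x n)
      (fun n => badScales a R 0 lam δ x n) ?_ ?_ hfin
    · intro n _ _
      exact bad_le a R c₁ c₂ δ x n P L hVxpos hL hP
    · intro n _ _
      exact bad_le a R 0 lam δ x n P L hVxpos hL hP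
  filter_upwards [key] with x hx
  intro a _ ha hadm
  exact hx x rfl a ha hadm

end Pool.Agent.Results.MP_68a45e_nt.AllButFewScales
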