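import Pool.Agent.W23.KS.All
import Pool.Agent.W23.KS.Fin5

/-!
Almost prime `k`-tuples at the elements of an arbitrary dense set of primes: lower bounds of the true
order of magnitude, with the sharp number of exceptions.
-/

set_option autoImplicit false

namespace Pool.Agent.Results.MP_68a45e_nt.AlmostPrimeTuplesSharp

/-- `S` consists of `k` linear forms `a + b n`, given by pairs `(a, b)`, with coprime integers
`a, b`, `0 < |a| ≤ X^M` and `1 ≤ b ≤ X^M` -/
def System (k M X : ℕ) (S : Finset (ℤ × ℕ)) : Prop :=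
  S.card = k ∧ ∀ L ∈ S, L.1 ≠ 0 ∧ |(L.1 : ℝ)| ≤ (X : ℝ) ^ M ∧ 1 ≤ L.2 ∧ (L.2 : ℝ) ≤ (X : ℝ) ^ M ∧
    Int.gcd L.1 L.2 = 1

/-- the `p ∈ A` such that for each form `a + b n` of `S` one has `|a + b p| = m s` with
`1 ≤ m ≤ (log X)^t` and `s > 1` a product of at most `r` primes, each at least `X^(1/r)` -/
def good (A : Finset ℕ) (X t r : ℕ) (S : Finset (ℤ × ℕ)) : Set ℕ :=
  {p : ℕ | p ∈ A ∧ ∀ L ∈ S, ∃ m s : ℕ, (L.1 + L.2 * (p : ℤ)).natAbs = m * s ∧
    1 ≤ m ∧ (m : ℝ) ≤ Real.log X ^ t ∧ 1 < s ∧ s.primeFactorsList.length ≤ r ∧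
    ∀ q : ℕ, q.Prime → q ∣ s → (X : ℝ) ^ (1 / r : ℝ) ≤ q}

open Pool.Agent.W23.KS in
theorem good_eq {A : Finset ℕ} {X t r : ℕ} {S : Finset (ℤ × ℕ)} :
    good A X t r S = (G3 A X t r S : Set ℕ) := by
  classical
  ext p
  unfold good G3
  rw [Finset.mem_coe, Finset.mem_filter, Set.mem_setOf_eq]
  refine and_congr_right fun _ => forall_congr' fun L => forall_congr' fun _ => ?_
  refine exists_congr fun m => exists_congr fun s => and_congr_right fun _ =>
    and_congr_right fun _ => and_congr_right fun _ => and_congr_right fun h4 =>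
    and_congr_right fun _ => ?_
  constructor
  · intro h q hq
    exact h q (Nat.prime_of_mem_primeFactors hq) (Nat.dvd_of_mem_primeFactors hq)
  · intro h q hq hqs
    exact h q (Nat.mem_primeFactors.2 ⟨hq, hqs, by omega⟩)

open Pool.Agent.W23.KS in
theorem sys {k M X : ℕ} (hX : 1 ≤ X) {S : Finset (ℤ × ℕ)} (h : System k M X S) :
    SysK k (M + 1) X S := by
  have hX1 : (1 : ℝ) ≤ X := by exact_mod_cast hX
  have hp : (X : ℝ) ^ M ≤ (X : ℝ) ^ (M + 1) := pow_le_pow_right₀ hX1 (by omega)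
  refine ⟨⟨h.1, fun L hL => ?_⟩, fun L hL => (h.2 L hL).1⟩
  obtain ⟨-, g1, g2, g3, g4⟩ := h.2 L hL
  exact ⟨g1.trans hp, g2, g3.trans hp, g4⟩

/-- Let `k ≥ 1` and `M` be given.  (1) There is `r` such that for every `δ > 0` there are `c > 0`, `C`
and `t` such that for every `X ≥ 3` and every set `A` of at least `δ X / log X` primes up to `X` there
is a set `H` of at most `C (log X / log log X)^k` linear forms such that every system `S` of `k` linear
forms disjoint from `H` has at least `c (log log X / log X)^k |A|` good elements of `A`.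
(2) The order of the lower bound is sharp for every system.
(3) The number of exceptions is sharp: any `c' (log X / log log X)^k` systems are simultaneously
exceptional for some set `A` containing all but at most `η X / log X` of the primes up to `X`. -/
theorem result (k M : ℕ) (hk : 1 ≤ k) :
    (∃ r : ℕ, 1 ≤ r ∧ ∀ δ : ℝ, 0 < δ → ∃ (c C : ℝ) (t : ℕ), 0 < c ∧ ∀ X : ℕ, 3 ≤ X →
      ∀ A : Finset ℕ, (∀ p ∈ A, p.Prime ∧ p ≤ X) → δ * (X / Real.log X) ≤ A.card →
      ∃ H : Finset (ℤ × ℕ), (H.card : ℝ) ≤ C * (Real.log X / Real.log (Real.log X)) ^ k ∧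
        ∀ S : Finset (ℤ × ℕ), System k M X S → Disjoint S H →
          c * (Real.log (Real.log X) / Real.log X) ^ k * A.card ≤
            ((good A X t r S).ncard : ℝ)) ∧
    (∀ t r : ℕ, 1 ≤ r → ∃ (C : ℝ) (X₀ : ℕ), ∀ X : ℕ, X₀ ≤ X →
      ∀ S : Finset (ℤ × ℕ), System k M X S →
        ((good ((Finset.Icc 1 X).filter Nat.Prime) X t r S).ncard : ℝ) ≤
          C * (Real.log (Real.log X) / Real.log X) ^ k * (X / Real.log X)) ∧
    (∀ (t r : ℕ) (η : ℝ), 1 ≤ r → 0 < η → ∃ (c' : ℝ) (X₀ : ℕ), 0 < c' ∧ ∀ X : ℕ, X₀ ≤ X →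
      ∀ 𝒮 : Finset (Finset (ℤ × ℕ)), (∀ S ∈ 𝒮, System k M X S) →
      (𝒮.card : ℝ) ≤ c' * (Real.log X / Real.log (Real.log X)) ^ k →
      ∃ A : Finset ℕ, (∀ p ∈ A, p.Prime ∧ p ≤ X) ∧
        (((Finset.Icc 1 X).filter Nat.Prime).card : ℝ) - A.card ≤ η * (X / Real.log X) ∧
        ∀ S ∈ 𝒮, good A X t r S = ∅) := by
  classical
  refine ⟨?_, ?_, ?_⟩
  · obtain ⟨r, hr, h⟩ := Pool.Agent.W23.KS.main_thm k (M + 1) hk (by omega)
    refine ⟨r, hr, fun δ hδ => ?_⟩
    obtain ⟨c, C, t, hc, H⟩ := h δ hδ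
    refine ⟨c, C, t, hc, fun X hX A hA hAc => ?_⟩
    obtain ⟨Hx, h1, h2⟩ := H X hX A hA hAc
    refine ⟨Hx, h1, fun S hS hSH => ?_⟩
    rw [good_eq, Set.ncard_coe_finset]
    exact h2 S (sys (by omega) hS) hSH
  · intro t r hr
    obtain ⟨C, X₀, -, h⟩ := Pool.Agent.W23.KS.upperK Pool.Agent.W23.KS.UBSK_thm
      Pool.Agent.W23.KS.VLBK_thm k (M + 1) t r hk hr
    refine ⟨C, max X₀ 1, fun X hX S hS => ?_⟩
    rw [good_eq, Set.ncard_coe_finset]
    exact h X ((le_max_left _ _).trans hX) S (sys ((le_max_right _ _).trans hX) hS)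
  · intro t r η hr hη
    obtain ⟨c', X₀, hc', h⟩ := Pool.Agent.W23.KS.sharp_thm k (M + 1) t r hk hr η hη
    refine ⟨c', max X₀ 1, hc', fun X hX 𝒮 h𝒮 hcard => ?_⟩
    obtain ⟨A, h1, h2, h3⟩ := h X ((le_max_left _ _).trans hX) 𝒮
      (fun S hS => sys ((le_max_right _ _).trans hX) (h𝒮 S hS)) hcard
    refine ⟨A, h1, h2, fun S hS => ?_⟩
    rw [good_eq, h3 S hS, Finset.coe_empty]

end Pool.Agent.Results.MP_68a45e_nt.AlmostPrimeTuplesSharp
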