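import Pool.Agent.W93.TD6

/-!
# The asymptotic formula of Hardy and Littlewood for prime tuples, for shifts with random digits

Definitions used: `Pool.Agent.H373R2.T7.singZ a z`: the partial product over the primes `p ≤ z` of
`(1 - ν(p) / p) / (1 - 1 / p) ^ (s + 1)`, where `ν(p)` is the number of `r < p` for which `p` divides
`r (r + a 1) ... (r + a s)`; `Pool.Agent.H373R2.T7.tupleCount a N`: the sum of
`log p * ∏ i, log (p + a i)` over the primes `p ≤ N` for which all `p + a i` are primes;
`Pool.Agent.H373R2.T7.Admissible a`: for every prime `p` there is an `r` such that `p` divides neither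
`r` nor any `r + a i`; `Pool.Agent.H560R3.GB.primeTuples a N`: the number of primes `p ≤ N` for which
all `p + a i` are primes.
-/

set_option autoImplicit false

namespace Pool.Agent.Results.MP_68a45e_nt.RandomDigitShifts

open Finset Pool.Agent.H560R3.GB
open Pool.Agent.H373R2.T7 (singZ tupleCount Admissible)

/-- The formula of Hardy and Littlewood for the shifts `a 1, ..., a s` and the primes up to `N`: the
singular series converges, its sum `S` predicts the weighted number of prime tuples with an error of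
at most `N / log ^ U N`, and, if the shifts are admissible, `S` is positive and `S N / log ^ (s + 1) N`
predicts the number of prime tuples with a relative error of at most `ε`. -/
def Holds {s : ℕ} (ε : ℝ) (U N : ℕ) (a : Fin s → ℕ) : Prop :=
  ∃ S : ℝ, Filter.Tendsto (fun z => singZ (fun i => (a i : ℤ)) z) Filter.atTop (nhds S) ∧
    |tupleCount (fun i => (a i : ℤ)) N - S * N| ≤ (N : ℝ) / Real.log N ^ U ∧
    (Admissible (fun i => (a i : ℤ)) → 0 < S ∧
      |(primeTuples a N : ℝ) - S * (N / Real.log N ^ (s + 1))| ≤ ε * (S * (N / Real.log N ^ (s + 1))))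

/-- The integer `c + d 0 + d 1 * b + ... + d (k - 1) * b ^ (k - 1)`. -/
def value (b c : ℕ) {k : ℕ} (d : Fin k → ℕ) : ℕ := c + ∑ j, d j * b ^ (j : ℕ)

open Classical in
/-- The probability of the event `E` if the digits `d i j`, for `i < s` and `j < k`, are chosen
independently of each other from `{0, ..., H - 1}`, and `d i j` is equal to `a` with probability
`w i j a`. -/
noncomputable def Prob (s H k : ℕ) (w : Fin s → ℕ → ℕ → ℝ) (E : (Fin s → Fin k → ℕ) → Prop) : ℝ :=
  ∑ d ∈ Fintype.piFinset (fun _ : Fin s => Fintype.piFinset (fun _ : Fin k => range H)),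
    if E d then ∏ i, ∏ j : Fin k, w i j (d i j) else 0

/-- Let `s ≥ 1`, `b ≥ 2`, `H`, `B`, `U`, `η > 0` and `ε > 0` be fixed and let `k` be large. Let the
digits `d i j` (`i < s`, `j < k`) be independent random elements of `{0, ..., H - 1}` with arbitrary
distributions, none of which takes a value with a probability larger than `1 - η`, let `c i ≤ B b ^ k`
be arbitrary, and let `b ^ k / B ≤ N ≤ B b ^ k`. Then, with a probability of at least `1 - 1 / k ^ U`, the
formula of Hardy and Littlewood holds for the shifts `a i = c i + ∑ j, d i j * b ^ j` and the primes up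
to `N`. -/
theorem result (s b H B U : ℕ) (hs : 1 ≤ s) (hb : 2 ≤ b) (η ε : ℝ) (hη : 0 < η) (hε : 0 < ε) :
    ∃ k₀ : ℕ, ∀ k : ℕ, k₀ ≤ k → ∀ w : Fin s → ℕ → ℕ → ℝ,
      (∀ i, ∀ j < k, (∀ a, 0 ≤ w i j a ∧ w i j a ≤ 1 - η) ∧ ∑ a ∈ range H, w i j a = 1) →
      ∀ c : Fin s → ℕ, (∀ i, c i ≤ B * b ^ k) →
      ∀ N : ℕ, b ^ k ≤ B * N → N ≤ B * b ^ k →
        Prob s H k w (fun d => ¬ Holds ε U N (fun i => value b (c i) (d i))) ≤ 1 / (k : ℝ) ^ U := by
  classical
  obtain ⟨k₀, h0⟩ := Pool.Agent.W93.TD.td_final s b H B U hs hb η ε hη hε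
  refine ⟨k₀, fun k hk w hw c hc N hN1 hN2 => ?_⟩
  have h1 := h0 k hk w (fun i j hj a => ((hw i j hj).1 a).1) (fun i j hj a => ((hw i j hj).1 a).2)
    (fun i j hj => (hw i j hj).2) N hN1 hN2 c hc
    (fun d => ¬ Holds ε U N (fun i => value b (c i) (d i))) (fun d hd => hd)
  refine le_trans (le_of_eq ?_) h1
  unfold Prob Pool.Agent.W93.TD.SS Pool.Agent.W93.RD.Str Pool.Agent.W93.RD.pw
  apply sum_congr rfl
  intro d _
  split_ifs <;> rfl

end Pool.Agent.Results.MP_68a45e_nt.RandomDigitShifts
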