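import Pool.Agent.W142.RV.Haar

/-!
Vectors of shifts `v = (v_1, ..., v_k)` for which `N, N + q v_1, ..., N + q v_k` are all prime for infinitely many
(at least `x ^ (1 - η)` up to arbitrarily large `x`) primes `N ≡ b (mod q)`: the number of residue vectors modulo a
prime `p` occupied with positive lower density, and the measure of the closure of their multiples `(v_1 α, ..., v_k α)`
on the torus.
-/

set_option autoImplicit false

namespace Pool.Agent.Results.MP_68a45e_nt.ResidueVectors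

open Finset MeasureTheory Pool.Agent.W142.RV

theorem box_ncard {k M : ℕ} (P : (Fin k → ℤ) → Prop) [DecidablePred P] :
    {v : Fin k → ℤ | (∀ i, |v i| ≤ M) ∧ P v}.ncard = ((box k M).filter P).card := by
  rw [← Set.ncard_coe_finset]
  congr 1
  ext v
  rw [coe_filter]
  simp only [Set.mem_setOf_eq, mem_box, abs_le]

theorem result (q b : ℕ) (hq : 1 ≤ q) (hqb : q.Coprime b) (k : ℕ) :
    (∀ (p m c : ℕ), p.Prime → m = (if p ∣ q then p else p - 1) → c = (m + 3) / 4 →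
      ∃ δ : ℝ, 0 < δ ∧ ∃ M₀ : ℕ, ∀ M : ℕ, M₀ ≤ M →
        c ^ (k + 1) - (c - 1) ^ (k + 1) ≤ {r : Fin k → ZMod p | δ * (M : ℝ) ^ k ≤
          ({v : Fin k → ℤ | (∀ i, |v i| ≤ M) ∧ (∀ i, ((v i : ℤ) : ZMod p) = r i) ∧ Good q b v}.ncard : ℝ)}.ncard) ∧
    (∀ (α ε η : ℝ), Irrational α → 0 < ε → 0 < η →
      ∃ δ : ℝ, 0 < δ ∧ ∃ M₀ : ℕ, ∀ M : ℕ, M₀ ≤ M →
        ENNReal.ofReal (((k : ℝ) + 1) / 4 ^ k - η) ≤ volume {x : Fin k → UnitAddCircle | δ * (M : ℝ) ^ k ≤
          ({v : Fin k → ℤ | (∀ i, |v i| ≤ M) ∧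
            (∀ i, ‖(((v i : ℝ) * α : ℝ) : UnitAddCircle) - x i‖ < ε) ∧ Good q b v}.ncard : ℝ)}) ∧
    (∀ α : ℝ, Irrational α →
      ENNReal.ofReal (((k : ℝ) + 1) / 4 ^ k) ≤ volume (closure {x : Fin k → UnitAddCircle |
        ∃ v : Fin k → ℤ, Good q b v ∧ ∀ i, x i = (((v i : ℝ) * α : ℝ) : UnitAddCircle)})) := by
  classical
  refine ⟨?_, ?_, ?_⟩
  · rintro p m c hp rfl rfl
    haveI : NeZero p := ⟨hp.ne_zero⟩
    obtain ⟨X, hX1, hX2, hX3⟩ : ∃ X : Finset (ZMod p), X.Nonempty ∧ (p ∣ q ∨ X ≠ univ) ∧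
        X.card = (if p ∣ q then p else p - 1) := by
      haveI : Fact p.Prime := ⟨hp⟩
      by_cases h : p ∣ q
      · exact ⟨univ, univ_nonempty, Or.inl h, by rw [card_univ, ZMod.card, if_pos h]⟩
      · refine ⟨univ.erase 0, ⟨1, by simp⟩, Or.inr ?_, ?_⟩
        · intro h0
          have : (0 : ZMod p) ∈ univ.erase (0 : ZMod p) := by rw [h0]; exact mem_univ _
          simp at this
        · rw [card_erase_of_mem (mem_univ _), card_univ, ZMod.card, if_neg h]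
    obtain ⟨δ, hδ, M₀, hM₀⟩ := resA hp hq hqb k X hX1 hX2
    refine ⟨δ, hδ, M₀, fun M hM => ?_⟩
    rw [← hX3]
    refine (hM₀ M hM).trans (le_of_eq ?_)
    rw [← Set.ncard_coe_finset]
    congr 1
    ext r
    rw [mem_coe, mem_rich, Set.mem_setOf_eq, box_ncard]
    simp only [Set.mem_setOf_eq]
  · intro α ε η hα hε hη
    obtain ⟨δ, hδ, M₀, hM₀⟩ := torus_measure hq hqb k α hα ε η hε hη
    refine ⟨δ, hδ, M₀, fun M hM => ?_⟩
    refine (hM₀ M hM).trans (le_of_eq ?_)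
    congr 1
    ext x
    rw [Set.mem_setOf_eq, Set.mem_setOf_eq, box_ncard]
  · intro α hα
    exact torus_closure hq hqb k α hα

end Pool.Agent.Results.MP_68a45e_nt.ResidueVectors
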